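import Pool.Agent.Helper5.XIdx.Defs

set_option autoImplicit false

namespace Pool.Agent.Helper5.XIdx

variable {G : Type} [Group G]

/-- bounded integral cocycle data on the face poset -/
def HasCoc (g : G) (m : ℕ) (M : ℤ) (X : Cx G) : Prop :=
  ∃ (lam : Set X.V → ZMod m) (c : Set X.V → Set X.V → ℤ),
    (∀ s ∈ X.F, lam (X.act g '' s) = lam s + 1) ∧
    (∀ s ∈ X.F, ∀ t ∈ X.F, s ⊆ t → ((c s t : ℤ) : ZMod m) = lam t - lam s ∧ |c s t| ≤ M ∧
      c (X.act g '' s) (X.act g '' t) = c s t) ∧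
    (∀ s ∈ X.F, ∀ t ∈ X.F, ∀ u ∈ X.F, s ⊆ t → t ⊆ u → c s u = c s t + c t u)

/-- bounded integral cocycle data on the edges -/
def HasEdge (g : G) (m : ℕ) (M : ℤ) (X : Cx G) : Prop :=
  ∃ (lam : X.V → ZMod m) (c : X.V → X.V → ℤ), ∀ s ∈ X.F,
    (∀ u ∈ s, lam (X.act g u) = lam u + 1) ∧
    (∀ u ∈ s, ∀ v ∈ s, ((c u v : ℤ) : ZMod m) = lam v - lam u ∧ |c u v| ≤ M ∧
      c (X.act g u) (X.act g v) = c u v) ∧
    (∀ u ∈ s, ∀ v ∈ s, ∀ w ∈ s, c u w = c u v + c v w)

/-- closed under nonempty subsets -/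
def Down (X : Cx G) : Prop := ∀ s ∈ X.F, ∀ t ⊆ s, t.Nonempty → t ∈ X.F

omit [Group G] in
lemma Down.sd (X : Cx G) : Down X.sd := by
  rintro c ⟨hc1, hc2, hc3⟩ d hd hdn
  exact ⟨hdn, hd.trans hc2, hc3.mono hd⟩

omit [Group G] in
lemma HasCoc.toEdge {g : G} {m : ℕ} {M : ℤ} {X : Cx G} (hX : Down X) (h : HasCoc g m M X) :
    HasEdge g m (2 * M) X := by
  obtain ⟨lam, c, h1, h2, h3⟩ := h
  refine ⟨fun u => lam {u}, fun u v => c {u} {u, v} - c {v} {u, v}, ?_⟩
  intro s hs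
  have f1 : ∀ u ∈ s, ({u} : Set X.V) ∈ X.F := fun u hu =>
    hX s hs _ (Set.singleton_subset_iff.mpr hu) (Set.singleton_nonempty u)
  have f2 : ∀ u ∈ s, ∀ v ∈ s, ({u, v} : Set X.V) ∈ X.F := fun u hu v hv =>
    hX s hs _ (Set.pair_subset hu hv) ⟨u, Or.inl rfl⟩
  have he : ∀ u ∈ s, ∀ v ∈ s, c {u} {u, v} - c {v} {u, v} = c {u} s - c {v} s := by
    intro u hu v hv
    have a1 := h3 {u} (f1 u hu) {u, v} (f2 u hu v hv) s hs (by simp) (Set.pair_subset hu hv)
    have a2 := h3 {v} (f1 v hv) {u, v} (f2 u hu v hv) s hs (by simp) (Set.pair_subset hu hv)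
    rw [a1, a2]; ring
  have lu : ∀ u ∈ s, ({u} : Set X.V) ⊆ s := fun u hu => Set.singleton_subset_iff.mpr hu
  refine ⟨fun u hu => ?_, fun u hu v hv => ⟨?_, ?_, ?_⟩, fun u hu v hv w hw => ?_⟩
  · have := h1 {u} (f1 u hu)
    rwa [Set.image_singleton] at this
  · beta_reduce
    rw [he u hu v hv]
    push_cast
    rw [(h2 _ (f1 u hu) s hs (lu u hu)).1, (h2 _ (f1 v hv) s hs (lu v hv)).1]
    ring
  · beta_reduce
    rw [he u hu v hv]
    have a1 := (h2 _ (f1 u hu) s hs (lu u hu)).2.1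
    have a2 := (h2 _ (f1 v hv) s hs (lu v hv)).2.1
    rw [abs_le] at a1 a2 ⊢
    constructor <;> linarith
  · have a1 := (h2 _ (f1 u hu) _ (f2 u hu v hv) (by simp)).2.2
    have a2 := (h2 _ (f1 v hv) _ (f2 u hu v hv) (by simp)).2.2
    rw [Set.image_singleton, Set.image_pair] at a1 a2
    beta_reduce
    rw [a1, a2]
  · beta_reduce
    rw [he u hu w hw, he u hu v hv, he v hv w hw]
    ring

omit [Group G] in
lemma HasEdge.toCoc {g : G} {m : ℕ} {M : ℤ} {X : Cx G} (h : HasEdge g m M X.sd) :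
    HasCoc g m M X := by
  obtain ⟨lam, c, h⟩ := h
  have hchain2 : ∀ s ∈ X.F, ∀ t ∈ X.F, s ⊆ t → ({s, t} : Set (Set X.V)) ∈ X.sd.F := by
    intro s hs t ht hst
    refine ⟨⟨s, Or.inl rfl⟩, ?_, ?_⟩
    · rintro x (rfl | rfl)
      · exact hs
      · exact ht
    · rintro x (rfl | rfl) y (rfl | rfl) _
      · exact Or.inl le_rfl
      · exact Or.inl hst
      · exact Or.inr hst
      · exact Or.inl le_rfl
  have hchain3 : ∀ s ∈ X.F, ∀ t ∈ X.F, ∀ u ∈ X.F, s ⊆ t → t ⊆ u →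
      ({s, t, u} : Set (Set X.V)) ∈ X.sd.F := by
    intro s hs t ht u hu hst htu
    refine ⟨⟨s, Or.inl rfl⟩, ?_, ?_⟩
    · rintro x (rfl | rfl | rfl)
      · exact hs
      · exact ht
      · exact hu
    · rintro x (rfl | rfl | rfl) y (rfl | rfl | rfl) _
      · exact Or.inl le_rfl
      · exact Or.inl hst
      · exact Or.inl (hst.trans htu)
      · exact Or.inr hst
      · exact Or.inl le_rfl
      · exact Or.inl htu
      · exact Or.inr (hst.trans htu)
      · exact Or.inr htu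
      · exact Or.inl le_rfl
  refine ⟨lam, c, ?_, ?_, ?_⟩
  · intro s hs
    exact (h _ (hchain2 s hs s hs le_rfl)).1 s (Or.inl rfl)
  · intro s hs t ht hst
    exact (h _ (hchain2 s hs t ht hst)).2.1 s (Or.inl rfl) t (Or.inr rfl)
  · intro s hs t ht u hu hst htu
    exact (h _ (hchain3 s hs t ht u hu hst htu)).2.2 s (Or.inl rfl) t (Or.inr (Or.inl rfl)) u
      (Or.inr (Or.inr rfl))

lemma HasCoc.sd_iter {g : G} {m : ℕ} (r : ℕ) : ∀ {M : ℤ} {X : Cx G}, Down X →
    HasCoc g m M ((Cx.sd^[r]) X) → HasEdge g m (2 ^ (r + 1) * M) X := by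
  induction r with
  | zero =>
    intro M X hX h
    simpa using h.toEdge hX
  | succ r ih =>
    intro M X hX h
    rw [Function.iterate_succ_apply'] at h
    have h1 : HasEdge g m (2 * M) ((Cx.sd^[r]) X).sd := h.toEdge (Down.sd _)
    have h2 : HasCoc g m (2 * M) ((Cx.sd^[r]) X) := h1.toCoc
    have h3 := ih hX h2
    have e : (2 : ℤ) ^ (r + 1) * (2 * M) = 2 ^ (r + 1 + 1) * M := by ring
    rwa [e] at h3

/-- a map to `Q_1 G` gives cocycle data for every element `g`, with `m` the order of `g`. -/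
lemma hasCoc_of_toQ [Finite G] (g : G) {X : Cx G} (h : X.ToQ 1) :
    HasCoc g (orderOf g) (orderOf g) X := by
  classical
  set m := orderOf g with hm
  have hmpos : 0 < m := orderOf_pos g
  have : NeZero m := ⟨hmpos.ne'⟩
  let H := Subgroup.zpowers g
  let rel : Setoid G := QuotientGroup.rightRel H
  let rep : G → G := fun x => Quotient.out (Quotient.mk rel x)
  have hrep : ∀ x : G, ∃ a : ℤ, g ^ a * rep x = x := by
    intro x
    have h1 : Quotient.mk rel (rep x) = Quotient.mk rel x := Quotient.out_eq _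
    have h2 : rel (rep x) x := Quotient.exact h1
    have h3 : x * (rep x)⁻¹ ∈ H := QuotientGroup.rightRel_apply.mp h2
    obtain ⟨a, ha⟩ := Subgroup.mem_zpowers_iff.mp h3
    exact ⟨a, by rw [ha]; group⟩
  have hrepg : ∀ x : G, rep (g * x) = rep x := by
    intro x
    show Quotient.out (Quotient.mk rel (g * x)) = Quotient.out (Quotient.mk rel x)
    congr 1
    apply Quotient.sound
    show rel (g * x) x
    rw [QuotientGroup.rightRel_apply]
    rw [mul_inv_rev, ← mul_assoc, mul_inv_cancel, one_mul]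
    exact H.inv_mem (Subgroup.mem_zpowers g)
  choose a ha using hrep
  let lamG : G → ZMod m := fun x => (a x : ZMod m)
  have hlamG : ∀ x, lamG (g * x) = lamG x + 1 := by
    intro x
    have h1 := ha (g * x)
    rw [hrepg] at h1
    have h2 : g ^ a (g * x) * rep x = g ^ (a x + 1) * rep x := by
      rw [h1, add_comm, zpow_one_add, mul_assoc, ha x]
    have h3 := mul_right_cancel h2
    have h4 : a (g * x) ≡ a x + 1 [ZMOD (m : ℤ)] := by
      rw [hm]; exact zpow_eq_zpow_iff_modEq.mp h3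
    have h5 := (ZMod.intCast_eq_intCast_iff _ _ _).mpr h4
    show ((a (g * x) : ℤ) : ZMod m) = (a x : ZMod m) + 1
    rw [h5]; push_cast; rfl
  obtain ⟨f, hf1, hf2⟩ := h
  refine ⟨fun s => lamG (f s).1, fun s t => ((lamG (f t).1 - lamG (f s).1).val : ℤ), ?_, ?_, ?_⟩
  · intro s hs
    show lamG (f (X.act g '' s)).1 = lamG (f s).1 + 1
    rw [hf2 g s hs]
    exact hlamG _
  · intro s hs t ht hst
    refine ⟨?_, ?_, ?_⟩
    · push_cast
      rw [ZMod.natCast_val, ZMod.cast_id]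
    · show |(((lamG (f t).1 - lamG (f s).1).val : ℕ) : ℤ)| ≤ (m : ℤ)
      rw [abs_of_nonneg (by positivity)]
      exact_mod_cast (ZMod.val_lt _).le
    · show (((lamG (f (X.act g '' t)).1 - lamG (f (X.act g '' s)).1).val : ℕ) : ℤ) = _
      rw [hf2 g s hs, hf2 g t ht]
      show (((lamG (g * (f t).1) - lamG (g * (f s).1)).val : ℕ) : ℤ) = _
      rw [hlamG, hlamG, add_sub_add_right_eq_sub]
  · intro s hs t ht u hu hst htu
    rcases hf1 s hs t ht hst with h | h
    · simp only [h, sub_self]; simp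
    · rcases hf1 t ht u hu htu with h' | h'
      · simp only [h', sub_self]; simp
      · exfalso
        have h1 := (f s).2.2
        have h2 := (f u).2.2
        have h3 : (f s).2.1 < (f t).2.1 := h
        have h4 : (f t).2.1 < (f u).2.1 := h'
        omega

end Pool.Agent.Helper5.XIdx
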