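import Mathlib

set_option autoImplicit false

/-!
Simplicial complexes with a group action, geometric realisation, mapping index, cross-index.
-/

namespace Pool.Agent.Helper5.XIdx

variable {G : Type} [Group G]

/-- Data of a simplicial complex with a `G`-action: the vertices, the action on the vertices, and
the set of simplices. -/
structure Cx (G : Type) where
  V : Type
  act : G → V → V
  F : Set (Set V)

/-- The data form a finite `G`-simplicial complex. -/
def Cx.IsComplex (X : Cx G) : Prop :=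
  Finite X.V ∧ (∀ v, X.act 1 v = v) ∧ (∀ g h v, X.act (g * h) v = X.act g (X.act h v)) ∧
  (∀ v, {v} ∈ X.F) ∧ (∀ s ∈ X.F, s.Nonempty) ∧ (∀ s ∈ X.F, ∀ t ⊆ s, t.Nonempty → t ∈ X.F) ∧
  ∀ g, ∀ s ∈ X.F, X.act g '' s ∈ X.F

/-- The geometric realisation in barycentric coordinates: non-negative functions with sum `1`
whose support is a simplex. -/
def Cx.real (X : Cx G) : Set (X.V → ℝ) :=
  {x | (∀ v, 0 ≤ x v) ∧ ∑ᶠ v, x v = 1 ∧ {v | x v ≠ 0} ∈ X.F}

/-- the action on the realisation is free -/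
def Cx.Free (X : Cx G) : Prop :=
  ∀ g, ∀ x ∈ X.real, (fun v => x (X.act g⁻¹ v)) = x → g = 1

/-- the `(k+1)`-fold join `E_k G` in join coordinates: the point `∑ i, t i • h i` is the function
with value `t i` at `(h i, i)` and `0` elsewhere -/
def join (G : Type) (k : ℕ) : Set (G × Fin (k + 1) → ℝ) :=
  {x | (∀ v, 0 ≤ x v) ∧ ∑ᶠ v, x v = 1 ∧ ∀ i g h, x (g, i) ≠ 0 → x (h, i) ≠ 0 → g = h}

/-- there is a continuous equivariant map from the realisation of `X` to `E_k G` -/
def Cx.ToE (X : Cx G) (k : ℕ) : Prop :=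
  ∃ f : (X.V → ℝ) → (G × Fin (k + 1) → ℝ), ContinuousOn f X.real ∧
    (∀ x ∈ X.real, f x ∈ join G k) ∧
    ∀ g, ∀ x ∈ X.real, f (fun v => x (X.act g⁻¹ v)) = fun v => f x (g⁻¹ * v.1, v.2)

/-- there is an order-preserving equivariant map from the face poset of `X` to `Q_n G` -/
def Cx.ToQ (X : Cx G) (n : ℕ) : Prop :=
  ∃ f : Set X.V → G × Fin (n + 1),
    (∀ s ∈ X.F, ∀ t ∈ X.F, s ⊆ t → f s = f t ∨ (f s).2 < (f t).2) ∧
    ∀ g, ∀ s ∈ X.F, f (X.act g '' s) = (g * (f s).1, (f s).2)

/-- the barycentric subdivision: the vertices are the simplices of `X` (sets of vertices that are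
not simplices lie in no simplex of `X.sd`), the simplices the nonempty chains of simplices of `X` -/
def Cx.sd (X : Cx G) : Cx G where
  V := Set X.V
  act := fun g s => X.act g '' s
  F := {c | c.Nonempty ∧ c ⊆ X.F ∧ IsChain (· ⊆ ·) c}

end Pool.Agent.Helper5.XIdx
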