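import Pool.Agent.Helper5.XIdx.Coc
import Pool.Agent.Helper5.CrossIndex.Upper

set_option autoImplicit false

namespace Pool.Agent.Helper5.XIdx

open Pool.Agent.Helper5.CrossIndex (W par cW bW aW cv bv av pieces colorful pieces_three
  exists_piece F F_sum F_loc' F_nonneg F_shift continuous_F)

variable {G : Type} [Group G]

/-- the complex -/
def theK (T : ℕ) (g : G) : Cx G where
  V := G × W T
  act := fun h v => (h * v.1, v.2)
  F := {s | s.Nonempty ∧ ∃ h : G, ∃ S ∈ pieces T g, ∀ v ∈ s, (h * v.1, v.2) ∈ S}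

lemma theK_down (T : ℕ) (g : G) : Down (theK T g) := by
  rintro s ⟨_, h, S, hS, hv⟩ t ht htn
  exact ⟨htn, h, S, hS, fun v hvt => hv v (ht hvt)⟩

lemma theK_isComplex [Finite G] {T : ℕ} (hT : 0 < T) (g : G) : (theK T g).IsComplex := by
  refine ⟨?_, ?_, ?_, ?_, fun s hs => hs.1, theK_down T g, ?_⟩
  · show Finite (G × W T)
    infer_instance
  · intro v
    show ((1 : G) * v.1, v.2) = v
    rw [one_mul]
    rfl
  · intro a b v
    show (a * b * v.1, v.2) = (a * (b * v.1), v.2)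
    rw [mul_assoc]
  · intro v
    refine ⟨Set.singleton_nonempty v, v.1⁻¹, ?_⟩
    obtain ⟨S, hS, hv⟩ := exists_piece hT g v.2
    refine ⟨S, hS, fun w hw => ?_⟩
    have hw' : w = v := hw
    rw [hw', inv_mul_cancel]
    exact hv
  · rintro k s ⟨hs, h, S, hS, hv⟩
    refine ⟨hs.image _, h * k⁻¹, S, hS, ?_⟩
    rintro w ⟨v, hvs, rfl⟩
    show (h * k⁻¹ * (k * v.1), v.2) ∈ S
    rw [mul_assoc, inv_mul_cancel_left]
    exact hv v hvs

/-- no group element but `1` maps a simplex to itself; in fact it moves every vertex out -/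
lemma theK_free_aux {T : ℕ} (g : G) (s : Set (G × W T))
    (hs : s ∈ (theK T g).F) (k : G) (v : G × W T) (hv : v ∈ s)
    (hkv : (k * v.1, v.2) ∈ s) : k = 1 := by
  obtain ⟨_, h, S, hS, hm⟩ := hs
  have h3 := colorful hS (hm v hv) (hm _ hkv) rfl
  have h4 : h * v.1 = h * (k * v.1) := congrArg Prod.fst h3
  have h6 : 1 * v.1 = k * v.1 := by rw [one_mul]; exact mul_left_cancel h4
  exact (mul_right_cancel h6).symm

lemma exists_ne_zero {V : Type} {x : V → ℝ} (h : ∑ᶠ v, x v = 1) : ∃ v, x v ≠ 0 := by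
  by_contra hcon
  push Not at hcon
  rw [finsum_congr hcon, finsum_zero] at h
  exact zero_ne_one h

lemma theK_free (T : ℕ) (g : G) : (theK T g).Free := by
  intro k x hx hkx
  obtain ⟨v, hv⟩ := exists_ne_zero hx.2.1
  have h2 : x (k⁻¹ * v.1, v.2) = x v := congrFun hkx v
  have h3 : (k⁻¹ * v.1, v.2) ∈ {v | x v ≠ 0} := by
    show x (k⁻¹ * v.1, v.2) ≠ 0
    rw [h2]; exact hv
  exact inv_eq_one.mp (theK_free_aux g _ hx.2.2 k⁻¹ v hv h3)

/-- every simplex has at most three elements, and only the identity maps it to itself -/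
def Good (X : Cx G) : Prop :=
  (∀ s ∈ X.F, s.Finite ∧ s.Nonempty ∧ s.ncard ≤ 3) ∧
  (∀ k, Function.Injective (X.act k)) ∧
  (∀ v, X.act 1 v = v) ∧ (∀ g h v, X.act (g * h) v = X.act g (X.act h v)) ∧
  (∀ k, ∀ s ∈ X.F, X.act k '' s ∈ X.F) ∧
  ∀ k, ∀ s ∈ X.F, X.act k '' s = s → k = 1

lemma act_inj_of {V : Type} {act : G → V → V} (h1 : ∀ v, act 1 v = v)
    (h2 : ∀ g h v, act (g * h) v = act g (act h v)) (k : G) : Function.Injective (act k) := by
  intro a b hab
  have h3 := congrArg (act k⁻¹) hab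
  rwa [← h2, ← h2, inv_mul_cancel, h1, h1] at h3

lemma theK_good [Finite G] {T : ℕ} (hT : 0 < T) (g : G) : Good (theK T g) := by
  have hc := theK_isComplex hT g
  have hinj := act_inj_of (act := (theK T g).act) hc.2.1 hc.2.2.1
  refine ⟨?_, hinj, hc.2.1, hc.2.2.1, hc.2.2.2.2.2.2, ?_⟩
  · intro s hs
    have : Finite (theK T g).V := hc.1
    refine ⟨Set.toFinite _, hs.1, ?_⟩
    obtain ⟨_, h, S, hS, hm⟩ := hs
    obtain ⟨p, q, r, rfl⟩ := pieces_three hS
    have hsub : (theK T g).act h '' s ⊆ {p, q, r} := by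
      rintro w ⟨v, hv, rfl⟩
      exact hm v hv
    rw [← Set.ncard_image_of_injective s (hinj h)]
    have hpqr : ({p, q, r} : Set (G × W T)).ncard ≤ 3 := by
      have h7 := Set.ncard_insert_le p ({q, r} : Set (G × W T))
      have h8 := Set.ncard_insert_le q ({r} : Set (G × W T))
      rw [Set.ncard_singleton] at h8
      omega
    exact (Set.ncard_le_ncard hsub (Set.toFinite _)).trans hpqr
  · intro k s hs hks
    obtain ⟨v, hv⟩ := hs.1
    have h1 : (theK T g).act k v ∈ s := by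
      rw [← hks]; exact Set.mem_image_of_mem _ hv
    exact theK_free_aux g s hs k v hv h1

lemma Good.sd {X : Cx G} (h : Good X) : Good X.sd := by
  obtain ⟨h1, h2, h3, h4, h5, h6⟩ := h
  have a1 : ∀ v, X.sd.act 1 v = v := by
    intro s
    show X.act 1 '' s = s
    have : X.act 1 = id := funext h3
    rw [this, Set.image_id]
  have a2 : ∀ g k v, X.sd.act (g * k) v = X.sd.act g (X.sd.act k v) := by
    intro g k s
    show X.act (g * k) '' s = X.act g '' (X.act k '' s)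
    rw [Set.image_image]
    exact congrArg (fun f => f '' s) (funext fun v => h4 g k v)
  -- in a chain, the number of elements determines the member
  have hdet : ∀ c ∈ X.sd.F, ∀ s ∈ c, ∀ t ∈ c, Set.ncard (s : Set X.V) = Set.ncard (t : Set X.V) →
      s = t := by
    rintro c ⟨hc1, hc2, hc3⟩ s hs t ht hst
    rcases hc3.total hs ht with h | h
    · exact Set.eq_of_subset_of_ncard_le h hst.ge (h1 t (hc2 ht)).1
    · exact (Set.eq_of_subset_of_ncard_le h hst.le (h1 s (hc2 hs)).1).symm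
  refine ⟨?_, act_inj_of a1 a2, a1, a2, ?_, ?_⟩
  · rintro c hc
    have hinj : Set.InjOn (fun s : Set X.V => s.ncard) c := fun s hs t ht hst =>
      hdet c hc s hs t ht hst
    have hsub : (fun s : Set X.V => s.ncard) '' c ⊆ (Finset.Icc 1 3 : Finset ℕ) := by
      rintro n ⟨s, hs, rfl⟩
      have := h1 s (hc.2.1 hs)
      rw [Finset.mem_coe, Finset.mem_Icc]
      exact ⟨(Set.ncard_pos this.1).mpr this.2.1, this.2.2⟩
    have hfin : ((fun s : Set X.V => s.ncard) '' c).Finite :=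
      (Finset.finite_toSet _).subset hsub
    refine ⟨hfin.of_finite_image hinj, hc.1, ?_⟩
    have e : c.ncard = ((fun s : Set X.V => s.ncard) '' c).ncard :=
      (hinj.ncard_image).symm
    rw [e]
    refine (Set.ncard_le_ncard hsub (Finset.finite_toSet _)).trans ?_
    rw [Set.ncard_coe_finset]
    decide
  · rintro k c ⟨hc1, hc2, hc3⟩
    refine ⟨hc1.image _, ?_, ?_⟩
    · rintro _ ⟨s, hs, rfl⟩
      exact h5 k s (hc2 hs)
    · rintro _ ⟨s, hs, rfl⟩ _ ⟨t, ht, rfl⟩ _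
      rcases hc3.total hs ht with h | h
      · exact Or.inl (Set.image_mono h)
      · exact Or.inr (Set.image_mono h)
  · intro k c hc hkc
    obtain ⟨s, hs⟩ := hc.1
    have h7 : X.act k '' s ∈ c := by
      have : X.sd.act k s ∈ X.sd.act k '' c := Set.mem_image_of_mem _ hs
      rw [hkc] at this
      exact this
    refine h6 k s (hc.2.1 hs) (hdet c hc _ h7 s hs ?_)
    exact Set.ncard_image_of_injective s (h2 k)

/-- a map to `Q_2 G` -/
lemma Good.toQ {X : Cx G} (h : Good X) : X.ToQ 2 := by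
  obtain ⟨h1, h2, h3, h4, h5, h6⟩ := h
  classical
  let act : G → Set X.V → Set X.V := fun k s => X.act k '' s
  have a1 : ∀ s, act 1 s = s := by
    intro s
    show X.act 1 '' s = s
    have : X.act 1 = id := funext h3
    rw [this, Set.image_id]
  have a2 : ∀ g k s, act (g * k) s = act g (act k s) := by
    intro g k s
    show X.act (g * k) '' s = X.act g '' (X.act k '' s)
    rw [Set.image_image]
    exact congrArg (fun f => f '' s) (funext fun v => h4 g k v)
  let rel : Setoid (Set X.V) :=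
    { r := fun s t => ∃ k, act k s = t
      iseqv :=
        ⟨fun s => ⟨1, a1 s⟩, fun {s t} ⟨k, hk⟩ => ⟨k⁻¹, by
          rw [← hk, ← a2, inv_mul_cancel, a1]⟩, fun {s t u} ⟨k, hk⟩ ⟨l, hl⟩ => ⟨l * k, by
          rw [a2, hk, hl]⟩⟩ }
  let rep : Set X.V → Set X.V := fun s => Quotient.out (Quotient.mk rel s)
  have hrep : ∀ s, ∃ k : G, act k (rep s) = s := fun s =>
    Quotient.exact (Quotient.out_eq (Quotient.mk rel s))
  have hrepg : ∀ (g : G) (s : Set X.V), rep (act g s) = rep s := by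
    intro g s
    show Quotient.out (Quotient.mk rel (act g s)) = Quotient.out (Quotient.mk rel s)
    congr 1
    apply Quotient.sound
    exact ⟨g⁻¹, by rw [← a2, inv_mul_cancel, a1]⟩
  choose k hk using hrep
  have hrepF : ∀ s ∈ X.F, rep s ∈ X.F := by
    intro s hs
    have h7 : act (k s)⁻¹ s = rep s := by
      conv_lhs => rw [← hk s]
      rw [← a2, hk, inv_mul_cancel, a1]
    rw [← h7]
    exact h5 _ s hs
  have hkg : ∀ (g : G), ∀ s ∈ X.F, k (act g s) = g * k s := by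
    intro g s hs
    have h7 := hk (act g s)
    rw [hrepg] at h7
    have h8 : act (g * k s) (rep s) = act g s := by rw [a2, hk]
    have h9 : act ((g * k s)⁻¹ * k (act g s)) (rep s) = rep s := by
      rw [a2, h7, ← h8, ← a2, inv_mul_cancel, a1]
    exact (inv_mul_eq_one.mp (h6 _ _ (hrepF s hs) h9)).symm
  refine ⟨fun s => (k s, Fin.ofNat 3 (s.ncard - 1)), ?_, ?_⟩
  · intro s hs t ht hst
    rcases eq_or_ne s t with h | h
    · left; rw [h]
    · right
      have hlt := Set.ncard_lt_ncard (hst.ssubset_of_ne h) (h1 t ht).1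
      have hs1 := (Set.ncard_pos (h1 s hs).1).mpr (h1 s hs).2.1
      have hs3 := (h1 s hs).2.2
      have ht3 := (h1 t ht).2.2
      show (Fin.ofNat 3 (s.ncard - 1)).1 < (Fin.ofNat 3 (t.ncard - 1)).1
      simp only [Fin.ofNat]
      rw [Nat.mod_eq_of_lt (by omega), Nat.mod_eq_of_lt (by omega)]
      omega
  · intro g s hs
    have h7 : (X.act g '' s).ncard = s.ncard := Set.ncard_image_of_injective s (h2 g)
    exact Prod.ext (hkg g s hs) (by show Fin.ofNat 3 _ = Fin.ofNat 3 _; rw [h7])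

lemma good_iter [Finite G] {X : Cx G} (h : Good X) (r : ℕ) : Good (Cx.sd^[r] X) := by
  induction r with
  | zero => exact h
  | succ r ih =>
    rw [Function.iterate_succ_apply']
    exact ih.sd

/-- `ind ≤ 1` -/
lemma theK_toE [Finite G] (T : ℕ) (g : G) : (theK T g).ToE 1 := by
  have : Fintype G := Fintype.ofFinite G
  refine ⟨F T g, (continuous_F T g).continuousOn, ?_, ?_⟩
  · intro x hx
    refine ⟨F_nonneg T g x hx.1, ?_, ?_⟩
    · have h1 : ∑ᶠ v : G × W T, x v = 1 := hx.2.1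
      rw [finsum_eq_sum_of_fintype] at h1 ⊢
      exact (F_sum T g x hx.1).trans h1
    · intro i k k' hk hk'
      obtain ⟨_, h, S, hS, hm⟩ := hx.2.2
      exact F_loc' hS x hx.1 h (fun v hv => hm v hv) hk hk'
  · intro h x _
    funext v
    exact F_shift T g h⁻¹ x v

omit [Group G] in
lemma join_zero_val {y : G × Fin (0 + 1) → ℝ} (hy : y ∈ join G 0) (v : G × Fin (0 + 1)) :
    y v = 0 ∨ y v = 1 := by
  by_cases h : y v = 0
  · exact Or.inl h
  · right
    have h1 := hy.2.1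
    rwa [finsum_eq_single y v] at h1
    intro w hwv
    by_contra hw
    apply hwv
    have e : w.2 = v.2 := Subsingleton.elim (α := Fin 1) _ _
    have h2 : y (w.1, v.2) ≠ 0 := by rw [← e]; exact hw
    exact Prod.ext (hy.2.2 v.2 w.1 v.1 h2 h) e

open Classical in
/-- indicator of a vertex -/
noncomputable def ind1 {V : Type} (u w : V) : ℝ := if w = u then 1 else 0

lemma ind1_self {V : Type} (u : V) : ind1 u u = 1 := by simp [ind1]

lemma ind1_ne {V : Type} {u w : V} (h : w ≠ u) : ind1 u w = 0 := by simp [ind1, h]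

/-- the segment between two vertices -/
noncomputable def seg {V : Type} (u v : V) (τ : ℝ) : V → ℝ :=
  fun w => (1 - τ) * ind1 u w + τ * ind1 v w

omit [Group G] in
lemma seg_mem {X : Cx G} (hX : Down X) {s : Set X.V} (hs : s ∈ X.F) {u v : X.V} (hu : u ∈ s)
    (hv : v ∈ s) (huv : u ≠ v) {τ : ℝ} (h0 : 0 ≤ τ) (h1 : τ ≤ 1) : seg u v τ ∈ X.real := by
  have eu : seg u v τ u = 1 - τ := by
    simp [seg, ind1_self, ind1_ne huv]
  have ev : seg u v τ v = τ := by
    simp [seg, ind1_self, ind1_ne huv.symm]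
  have ew : ∀ w, w ≠ u → w ≠ v → seg u v τ w = 0 := fun w h2 h3 => by
    simp [seg, ind1_ne h2, ind1_ne h3]
  have hsum : ∑ᶠ w, seg u v τ w = 1 := by
    classical
    rw [finsum_eq_sum_of_support_subset (s := {u, v})]
    · rw [Finset.sum_pair huv, eu, ev]; ring
    · intro w hw
      by_contra hc
      rw [Finset.mem_coe, Finset.mem_insert, Finset.mem_singleton, not_or] at hc
      exact hw (ew w hc.1 hc.2)
  refine ⟨fun w => ?_, hsum, hX s hs _ ?_ ?_⟩
  · by_cases h2 : w = u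
    · rw [h2, eu]; linarith
    · by_cases h3 : w = v
      · rw [h3, ev]; exact h0
      · rw [ew w h2 h3]
  · intro w hw
    by_contra hc
    exact hw (ew w (fun h => hc (h ▸ hu)) (fun h => hc (h ▸ hv)))
  · obtain ⟨w, hw⟩ := exists_ne_zero hsum
    exact ⟨w, hw⟩

omit [Group G] in
lemma const_on_edge {X : Cx G} (hX : Down X) {f : (X.V → ℝ) → (G × Fin (0 + 1) → ℝ)}
    (hf : ContinuousOn f X.real) (hj : ∀ x ∈ X.real, f x ∈ join G 0) {s : Set X.V}
    (hs : s ∈ X.F) {u v : X.V} (hu : u ∈ s) (hv : v ∈ s) (huv : u ≠ v) :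
    f (ind1 u) = f (ind1 v) := by
  have e0 : seg u v 0 = ind1 u := by funext w; simp [seg]
  have e1 : seg u v 1 = ind1 v := by funext w; simp [seg]
  have hseg : Continuous (fun τ : ℝ => seg u v τ) := by
    refine continuous_pi fun w => ?_
    unfold seg
    fun_prop
  have hmem : ∀ τ ∈ Set.Icc (0 : ℝ) 1, seg u v τ ∈ X.real := fun τ hτ =>
    seg_mem hX hs hu hv huv hτ.1 hτ.2
  funext w
  have hp : ContinuousOn (fun τ : ℝ => f (seg u v τ) w) (Set.Icc 0 1) := by
    have h1 : ContinuousOn (fun τ : ℝ => f (seg u v τ)) (Set.Icc 0 1) :=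
      hf.comp hseg.continuousOn hmem
    exact (continuousOn_pi.mp h1) w
  have hp01 : ∀ τ ∈ Set.Icc (0 : ℝ) 1, f (seg u v τ) w = 0 ∨ f (seg u v τ) w = 1 :=
    fun τ hτ => join_zero_val (hj _ (hmem τ hτ)) w
  have m0 : (0 : ℝ) ∈ Set.Icc (0 : ℝ) 1 := by norm_num
  have m1 : (1 : ℝ) ∈ Set.Icc (0 : ℝ) 1 := by norm_num
  rw [← e0, ← e1]
  rcases hp01 0 m0 with h0 | h0 <;> rcases hp01 1 m1 with h1 | h1
  · rw [h0, h1]
  · exfalso
    have h2 := intermediate_value_Icc (zero_le_one (α := ℝ)) hp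
    have h3 : (1 / 2 : ℝ) ∈ Set.Icc (f (seg u v 0) w) (f (seg u v 1) w) := by
      rw [h0, h1]; norm_num
    obtain ⟨τ, hτm, hτ⟩ := h2 h3
    rcases hp01 τ hτm with h4 | h4
    · have h5 := h4.symm.trans hτ
      norm_num at h5
    · have h5 := h4.symm.trans hτ
      norm_num at h5
  · exfalso
    have h2 := intermediate_value_Icc' (zero_le_one (α := ℝ)) hp
    have h3 : (1 / 2 : ℝ) ∈ Set.Icc (f (seg u v 1) w) (f (seg u v 0) w) := by
      rw [h0, h1]; norm_num
    obtain ⟨τ, hτm, hτ⟩ := h2 h3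
    rcases hp01 τ hτm with h4 | h4
    · have h5 := h4.symm.trans hτ
      norm_num at h5
    · have h5 := h4.symm.trans hτ
      norm_num at h5
  · rw [h0, h1]

lemma piece_mem {T : ℕ} (g : G) {S : Set (G × W T)} (hS : S ∈ pieces T g) (hn : S.Nonempty) :
    S ∈ (theK T g).F :=
  ⟨hn, 1, S, hS, fun v hv => by rw [one_mul]; exact hv⟩

lemma cv_add_two (T : ℕ) (g : G) (t : ℕ) :
    cv T g (t + 2) = (g * (cv T g t).1, (cv T g t).2) := by
  show (g ^ ((t + 2) / 2), cW T (t + 2)) = (g * g ^ (t / 2), cW T t)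
  have e1 : (t + 2) / 2 = t / 2 + 1 := by omega
  have e2 : par (t + 2) = par t := by
    apply Fin.ext
    show (t + 2) % 2 = t % 2
    omega
  rw [e1, pow_succ', cW, cW, e2]

lemma cv_ne (T : ℕ) (g : G) (t : ℕ) : cv T g t ≠ cv T g (t + 1) := by
  intro h
  have h1 : cW T t = cW T (t + 1) := congrArg Prod.snd h
  have := CrossIndex.cW_eq h1
  omega

lemma theK_not_toE {T : ℕ} (hT : 1 < T) (g : G) (hg : g ≠ 1) : ¬ (theK T g).ToE 0 := by
  rintro ⟨f, hf, hj, heq⟩
  have s0 : ({bv G T 0, cv T g 0, cv T g (0 + 1)} : Set (G × W T)) ∈ (theK T g).F :=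
    piece_mem g ⟨0, by omega, Or.inr (Or.inl rfl)⟩ ⟨_, Or.inl rfl⟩
  have s1 : ({bv G T 1, cv T g 1, cv T g (1 + 1)} : Set (G × W T)) ∈ (theK T g).F :=
    piece_mem g ⟨1, hT, Or.inr (Or.inl rfl)⟩ ⟨_, Or.inl rfl⟩
  have e1 := const_on_edge (theK_down T g) hf hj s0 (u := cv T g 0) (v := cv T g (0 + 1))
    (Or.inr (Or.inl rfl)) (Or.inr (Or.inr rfl)) (cv_ne T g 0)
  have e2 := const_on_edge (theK_down T g) hf hj s1 (u := cv T g 1) (v := cv T g (1 + 1))
    (Or.inr (Or.inl rfl)) (Or.inr (Or.inr rfl)) (cv_ne T g 1)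
  have e12 := e1.trans e2
  set x0 : (theK T g).V → ℝ := ind1 (cv T g 0 : G × W T) with hx0
  have hx0m : x0 ∈ (theK T g).real := by
    have h1 := seg_mem (theK_down T g) s0 (u := cv T g 0) (v := cv T g (0 + 1))
      (Or.inr (Or.inl rfl)) (Or.inr (Or.inr rfl)) (cv_ne T g 0) le_rfl zero_le_one
    have e0 : seg (V := (theK T g).V) (cv T g 0) (cv T g (0 + 1)) 0 = x0 := by
      funext w; simp [seg, hx0]
    rwa [e0] at h1
  have hshift : (ind1 (cv T g (1 + 1) : G × W T) : (theK T g).V → ℝ) =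
      fun v => x0 ((theK T g).act g⁻¹ v) := by
    funext v
    show ind1 (cv T g (0 + 2)) v = ind1 (cv T g 0) ((g⁻¹ * v.1, v.2) : G × W T)
    rw [cv_add_two]
    by_cases h : v = (g * (cv T g 0).1, (cv T g 0).2)
    · have h' : ((g⁻¹ * v.1, v.2) : G × W T) = cv T g 0 := by
        rw [h]
        show (g⁻¹ * (g * (cv T g 0).1), (cv T g 0).2) = cv T g 0
        rw [inv_mul_cancel_left]
      rw [h', ind1_self, h, ind1_self]
    · have h' : ((g⁻¹ * v.1, v.2) : G × W T) ≠ cv T g 0 := by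
        intro h'
        apply h
        rw [← h']
        show v = (g * (g⁻¹ * v.1), v.2)
        rw [mul_inv_cancel_left]
        rfl
      exact (ind1_ne (V := G × W T) h).trans (ind1_ne (V := G × W T) h').symm
  rw [hshift, heq g x0 hx0m] at e12
  have hy := hj x0 hx0m
  obtain ⟨w, hw⟩ := exists_ne_zero hy.2.1
  have h2 : f x0 w = f x0 (g⁻¹ * w.1, w.2) := congrFun e12 w
  have h3 : f x0 (g⁻¹ * w.1, w.2) ≠ 0 := by rw [← h2]; exact hw
  have h4 : w.1 = g⁻¹ * w.1 := hy.2.2 w.2 _ _ hw h3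
  have h5 : 1 * w.1 = g⁻¹ * w.1 := by rw [one_mul]; exact h4
  exact hg (inv_eq_one.mp (mul_right_cancel h5).symm)

lemma not_hasEdge [Finite G] (g : G) (hg : g ≠ 1) (M : ℤ) (n : ℕ) (hn : 4 * M < n)
    (hT : 0 < 2 * n) : ¬ HasEdge g (orderOf g) M (theK (2 * n) g) := by
  rintro ⟨lam, c, h⟩
  let a : G × W (2 * n) := av G (2 * n)
  let b : ℕ → G × W (2 * n) := bv G (2 * n)
  let d : ℕ → G × W (2 * n) := cv (2 * n) g
  -- the three kinds of simplices
  have f1 : ∀ t < 2 * n, ({b t, b (t + 1), d (t + 1)} : Set (G × W (2 * n))) ∈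
      (theK (2 * n) g).F := fun t ht => piece_mem g ⟨t, ht, Or.inl rfl⟩ ⟨_, Or.inl rfl⟩
  have f2 : ∀ t < 2 * n, ({b t, d t, d (t + 1)} : Set (G × W (2 * n))) ∈
      (theK (2 * n) g).F := fun t ht => piece_mem g ⟨t, ht, Or.inr (Or.inl rfl)⟩ ⟨_, Or.inl rfl⟩
  have f3 : ∀ t < 2 * n, ({a, b t, b (t + 1)} : Set (G × W (2 * n))) ∈
      (theK (2 * n) g).F := fun t ht => piece_mem g ⟨t, ht, Or.inr (Or.inr rfl)⟩ ⟨_, Or.inl rfl⟩
  have m1 : ∀ p q r : G × W (2 * n), p ∈ ({p, q, r} : Set (G × W (2 * n))) :=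
    fun p q r => Or.inl rfl
  have m2 : ∀ p q r : G × W (2 * n), q ∈ ({p, q, r} : Set (G × W (2 * n))) :=
    fun p q r => Or.inr (Or.inl rfl)
  have m3 : ∀ p q r : G × W (2 * n), r ∈ ({p, q, r} : Set (G × W (2 * n))) :=
    fun p q r => Or.inr (Or.inr rfl)
  have k1 : ∀ t < 2 * n, c a (b (t + 1)) = c a (b t) + c (b t) (b (t + 1)) := fun t ht =>
    (h _ (f3 t ht)).2.2 _ (m1 _ _ _) _ (m2 _ _ _) _ (m3 _ _ _)
  have k2 : ∀ t < 2 * n, c (b t) (d (t + 1)) = c (b t) (b (t + 1)) + c (b (t + 1)) (d (t + 1)) :=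
    fun t ht => (h _ (f1 t ht)).2.2 _ (m1 _ _ _) _ (m2 _ _ _) _ (m3 _ _ _)
  have k3 : ∀ t < 2 * n, c (b t) (d (t + 1)) = c (b t) (d t) + c (d t) (d (t + 1)) :=
    fun t ht => (h _ (f2 t ht)).2.2 _ (m1 _ _ _) _ (m2 _ _ _) _ (m3 _ _ _)
  have hd : ∀ t, d (t + 2) = (theK (2 * n) g).act g (d t) := fun t => cv_add_two (2 * n) g t
  have k4 : ∀ t < 2 * n, c (d (t + 2)) (d (t + 3)) = c (d t) (d (t + 1)) := by
    intro t ht
    have h7 := ((h _ (f2 t ht)).2.1 _ (m2 _ _ _) _ (m3 _ _ _)).2.2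
    have e3 : t + 3 = t + 1 + 2 := rfl
    rw [e3, hd t, hd (t + 1)]
    exact h7
  have k5 : (((c (d 0) (d 1) + c (d 1) (d 2) : ℤ)) : ZMod (orderOf g)) = 1 := by
    have e1 := ((h _ (f2 0 (by omega))).2.1 _ (m2 _ _ _) _ (m3 _ _ _)).1
    have e2 := ((h _ (f2 1 (by omega))).2.1 _ (m2 _ _ _) _ (m3 _ _ _)).1
    have e3 : lam (d 2) = lam (d 0) + 1 := by
      rw [hd 0]
      exact (h _ (f2 0 (by omega))).1 _ (m2 _ _ _)
    have e1' : (((c (d 0) (d 1)) : ℤ) : ZMod (orderOf g)) = lam (d 1) - lam (d 0) := e1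
    have e2' : (((c (d 1) (d 2)) : ℤ) : ZMod (orderOf g)) = lam (d 2) - lam (d 1) := e2
    rw [Int.cast_add, e1', e2', e3]
    ring
  have k6 : ∀ t ≤ 2 * n, |c a (b t)| ≤ M ∧ |c (b t) (d t)| ≤ M := by
    intro t ht
    rcases Nat.lt_or_ge t (2 * n) with h7 | h7
    · exact ⟨((h _ (f3 t h7)).2.1 _ (m1 _ _ _) _ (m2 _ _ _)).2.1,
        ((h _ (f2 t h7)).2.1 _ (m1 _ _ _) _ (m2 _ _ _)).2.1⟩
    · have ht2 : t = (2 * n - 1) + 1 := by omega
      rw [ht2]
      exact ⟨((h _ (f3 (2 * n - 1) (by omega))).2.1 _ (m1 _ _ _) _ (m3 _ _ _)).2.1,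
        ((h _ (f1 (2 * n - 1) (by omega))).2.1 _ (m2 _ _ _) _ (m3 _ _ _)).2.1⟩
  -- the telescoping quantity
  have tel : ∀ t < 2 * n, c a (b (t + 1)) + c (b (t + 1)) (d (t + 1)) =
      c a (b t) + c (b t) (d t) + c (d t) (d (t + 1)) := by
    intro t ht
    linarith [k1 t ht, k2 t ht, k3 t ht]
  have per : ∀ j < n, c (d (2 * j)) (d (2 * j + 1)) = c (d 0) (d 1) ∧
      c (d (2 * j + 1)) (d (2 * j + 2)) = c (d 1) (d 2) := by
    intro j
    induction j with
    | zero => intro _; exact ⟨rfl, rfl⟩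
    | succ j ih =>
      intro hj
      obtain ⟨i1, i2⟩ := ih (by omega)
      have e1 := k4 (2 * j) (by omega)
      have e2 := k4 (2 * j + 1) (by omega)
      have d1 : 2 * (j + 1) = 2 * j + 2 := by ring
      rw [d1]
      exact ⟨e1.trans i1, e2.trans i2⟩
  have fin : ∀ j ≤ n, c a (b (2 * j)) + c (b (2 * j)) (d (2 * j)) =
      c a (b 0) + c (b 0) (d 0) + j * (c (d 0) (d 1) + c (d 1) (d 2)) := by
    intro j
    induction j with
    | zero => intro _; simp
    | succ j ih =>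
      intro hj
      have i0 := ih (by omega)
      obtain ⟨p1, p2⟩ := per j (by omega)
      have t1 := tel (2 * j) (by omega)
      have t2 := tel (2 * j + 1) (by omega)
      have d1 : 2 * (j + 1) = 2 * j + 1 + 1 := by ring
      rw [d1, t2, t1, p1, p2, i0]
      push_cast
      ring
  have hfin := fin n le_rfl
  obtain ⟨b1, b2⟩ := k6 (2 * n) le_rfl
  obtain ⟨b3, b4⟩ := k6 0 (by omega)
  set κ := c (d 0) (d 1) + c (d 1) (d 2) with hκ
  have hκ0 : κ ≠ 0 := by
    intro h0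
    rw [h0] at k5
    simp only [Int.cast_zero] at k5
    have hm : 1 < orderOf g := by
      have : 0 < orderOf g := orderOf_pos g
      have h' : orderOf g ≠ 1 := fun h => hg (orderOf_eq_one_iff.mp h)
      omega
    have : Fact (1 < orderOf g) := ⟨hm⟩
    exact zero_ne_one k5
  have hκ1 : 1 ≤ |κ| := Int.one_le_abs hκ0
  have hn0 : (0 : ℤ) ≤ n := by positivity
  have habs : |(n : ℤ) * κ| ≤ 4 * M := by
    have e : (n : ℤ) * κ = c a (b (2 * n)) + c (b (2 * n)) (d (2 * n)) - c a (b 0) -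
      c (b 0) (d 0) := by
      rw [hfin]; ring
    rw [e]
    rw [abs_le] at b1 b2 b3 b4 ⊢
    constructor <;> linarith [b1.1, b1.2, b2.1, b2.2, b3.1, b3.2, b4.1, b4.2]
  rw [abs_mul, abs_of_nonneg hn0] at habs
  have : (n : ℤ) * 1 ≤ n * |κ| := mul_le_mul_of_nonneg_left hκ1 hn0
  linarith

lemma toQ_zero_one {X : Cx G} (h : X.ToQ 0) : X.ToQ 1 := by
  obtain ⟨f, f1, f2⟩ := h
  refine ⟨fun s => ((f s).1, 0), ?_, ?_⟩
  · intro s hs t ht hst
    rcases f1 s hs t ht hst with h7 | h7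
    · left; beta_reduce; rw [h7]
    · have e : (f s).2 = (f t).2 := Subsingleton.elim (α := Fin 1) _ _
      rw [e] at h7
      exact absurd h7 (lt_irrefl _)
  · intro g s hs
    show ((f (X.act g '' s)).1, (0 : Fin 2)) = (g * (f s).1, 0)
    rw [f2 g s hs]

/-- the main result -/
theorem main (G : Type) [Group G] [Finite G] [Nontrivial G] (r : ℕ) :
    ∃ K : Cx G, K.IsComplex ∧ K.Free ∧ IsLeast {k | K.ToE k} 1 ∧
      IsLeast {n | (Cx.sd^[r] K).ToQ n} 2 := by
  obtain ⟨g, hg⟩ := exists_ne (1 : G)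
  let n : ℕ := 4 * (2 ^ (r + 1) * orderOf g) + 1
  have hT : 0 < 2 * n := by omega
  refine ⟨theK (2 * n) g, theK_isComplex hT g, theK_free _ g, ⟨theK_toE _ g, ?_⟩, ?_, ?_⟩
  · intro j hj
    by_contra hcon
    have hj0 : j = 0 := by omega
    rw [hj0] at hj
    exact theK_not_toE (by omega) g hg hj
  · exact (good_iter (theK_good hT g) r).toQ
  · intro j hj
    by_contra hcon
    push Not at hcon
    have h1 : (Cx.sd^[r] (theK (2 * n) g)).ToQ 1 := by
      have hj01 : j = 0 ∨ j = 1 := by omega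
      rcases hj01 with h | h
      · rw [h] at hj
        exact toQ_zero_one hj
      · rw [h] at hj
        exact hj
    have h2 := (hasCoc_of_toQ g h1).sd_iter r (theK_down _ g)
    refine not_hasEdge g hg _ n ?_ hT h2
    show 4 * ((2 : ℤ) ^ (r + 1) * (orderOf g : ℤ)) < ((4 * (2 ^ (r + 1) * orderOf g) + 1 : ℕ) : ℤ)
    push_cast
    linarith

end Pool.Agent.Helper5.XIdx
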